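import Pool.Agent.H73.ZetaProj

/-!
Meromorphic continuation and Riemann hypothesis for the Hasse-Weil zeta functions of all
projective schemes over `ℤ[1/N]` are equivalent to the same for the cubic hypersurfaces
`T (x, y, z) = 0`, where `T` is a trilinear form with coefficients `0, 1, -1`.
-/

namespace Pool.Agent.Results.MP_7193be_nt.CubicReduction

open Pool.Agent.H73.Zeta

/-- **Theorem.**  Let `E` be a set of real numbers with `E + 1 = E` (for instance all real numbers,
or all half integers).  The following are equivalent.

(A) For every `N ≥ 1` and every closed subscheme `X` of a projective space over `ℤ[1/N]`, defined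
by a finite set of homogeneous polynomials, the zeta function of `X` extends to a meromorphic
function on the complex plane, all of whose zeros and poles have real part in `E`.

(B) The same holds for the zeta functions of the affine hypersurfaces `T (x, y, z) = 0` over `ℤ`,
for all trilinear forms `T` with coefficients in `{-1, 0, 1}`. -/
theorem result (E : Set ℝ) (hE : ∀ x : ℝ, x + 1 ∈ E ↔ x ∈ E) :
    (∀ (σ : Type) [Fintype σ] (F : Finset (MvPolynomial σ ℤ)),
      (∀ f ∈ F, ∃ d : ℕ, f.IsHomogeneous d) → ∀ N : ℕ, 0 < N → Good E (projCount F N)) ↔
    (∀ (a b c : ℕ) (T : Fin a → Fin b → Fin c → ℤ),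
      (∀ i j l, T i j l = -1 ∨ T i j l = 0 ∨ T i j l = 1) → Good E (triCount T)) :=
  ⟨fun h => tri_of_proj h hE, fun h _ _ _ hF N _ => (proj_of_tri h hE hF N).1⟩

end Pool.Agent.Results.MP_7193be_nt.CubicReduction
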