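import Pool.Agent.H73.Lp.FIN

set_option autoImplicit false

open MeasureTheory
open scoped ENNReal NNReal

namespace Pool.Agent.H73.Old.LpSubspaces

variable {n : ℕ}

/-- Euclidean space `ℝ^n`. -/
abbrev V (n : ℕ) : Type := EuclideanSpace ℝ (Fin n)

/-- `Ω` is a nonempty open bounded convex set with `Ω = -Ω`. -/
def IsBody (Ω : Set (V n)) : Prop :=
  Ω.Nonempty ∧ IsOpen Ω ∧ Bornology.IsBounded Ω ∧ Convex ℝ Ω ∧ ∀ x ∈ Ω, -x ∈ Ω

/-- The second moment of the functional `b` on `Ω`. -/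
noncomputable def secondMoment (Ω : Set (V n)) (b : V n) : ℝ := ∫ x in Ω, (inner ℝ b x) ^ 2

/-- Among all functionals of norm one, `a / |a|` has the largest variance on `Ω`. -/
def LargestVariance (Ω : Set (V n)) (a : V n) : Prop :=
  a ≠ 0 ∧ ∀ b : V n, ‖a‖ ^ 2 * secondMoment Ω b ≤ ‖b‖ ^ 2 * secondMoment Ω a

/-- The section of `Ω` by the hyperplane orthogonal to `a`. -/
def hyperplaneSection (Ω : Set (V n)) (a : V n) : Set (V n) := {x | x ∈ Ω ∧ inner ℝ a x = (0 : ℝ)}

/-- Hausdorff measure of codimension one. -/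
noncomputable def area (S : Set (V n)) : ℝ≥0∞ := μH[(n : ℝ) - 1] S

/-- The hyperplane inequality of the question for `Ω`, with constant `C`: for every `a` of largest
variance (and such an `a` exists) and every measurable `E ⊆ Ω` of half the volume. -/
def HyperplaneInequality (Ω : Set (V n)) (C : ℝ) : Prop :=
  (∃ a, LargestVariance Ω a) ∧
    ∀ a, LargestVariance Ω a → ∀ E : Set (V n), MeasurableSet E → E ⊆ Ω →
      volume E = volume Ω / 2 →
        area (hyperplaneSection Ω a) ≤ ENNReal.ofReal C * area (Ω ∩ frontier E)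

/-- The unit ball of the subspace `T (ℝ^n)` of `L_p(ν)`, in the coordinates given by `T`. -/
def subspaceBall {α : Type*} [MeasurableSpace α] {ν : Measure α} {p : ℝ}
    (T : V n →ₗ[ℝ] Lp ℝ (ENNReal.ofReal p) ν) : Set (V n) := {x | ‖T x‖ < 1}

/-- The hyperplane inequality of the question for the unit balls of all finite-dimensional
subspaces of `L_p(ν)`, `1 < p < 3`, in arbitrary linear coordinates. -/
theorem result :
    ∀ (n : ℕ) (α : Type*) (_ : MeasurableSpace α) (ν : Measure α) (p : ℝ)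
      (T : V n →ₗ[ℝ] Lp ℝ (ENNReal.ofReal p) ν), 1 ≤ n → 1 < p → p < 3 → Function.Injective T →
      IsBody (subspaceBall T) ∧
        HyperplaneInequality (subspaceBall T) (8760000 / Real.sqrt (min (p - 1) (3 - p))) := by
  intro n α _ ν p T hn hp hp3 hT
  obtain ⟨n, rfl⟩ : ∃ k, n = k + 1 := ⟨n - 1, by omega⟩
  have : Fact (1 ≤ ENNReal.ofReal p) := ⟨by
    rw [← ENNReal.ofReal_one]
    exact ENNReal.ofReal_le_ofReal hp.le⟩
  obtain ⟨R, hR, hKR⟩ := Pool.Agent.H73.Lp.ball_sub T hT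
  refine ⟨⟨⟨0, by simp [subspaceBall]⟩, Pool.Agent.H73.Lp.ball_open T, ?_,
    Pool.Agent.H73.Lp.ball_convex T, fun x hx => Pool.Agent.H73.Lp.ball_neg T hx⟩, ?_⟩
  · refine (Metric.isBounded_closedBall (x := (0 : V (n + 1))) (r := R)).subset
      fun x hx => ?_
    simpa using hKR x (lt_trans hx (by norm_num))
  · obtain ⟨h1, h2⟩ := Pool.Agent.H73.Lp.lp_hyper hp hp3 T hT
    refine ⟨h1, fun a ha E hE hEΩ hEv => ?_⟩
    have h3 := h2 a ha.1 ha.2 E hE hEΩ hEv
    have h4 : (((n + 1 : ℕ) : ℝ) - 1) = (n : ℝ) := by push_cast; ring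
    simp only [area, h4]
    exact h3

end Pool.Agent.H73.Old.LpSubspaces
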