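import Mathlib
import Pool.Agent.H73.WMMain
import Pool.Agent.H73.WMUnique

/-!
Weight-monodromy: the full conjecture is equivalent to one step of it in the middle cohomology.

For a cohomology theory with Frobenius, monodromy, Poincaré duality, products, the projective
line and a Tate curve (such as Hyodo-Kato cohomology of the smooth projective varieties over a
`p`-adic field) we show that the weight-monodromy conjecture for all varieties and all degrees is
equivalent to each of the following statements: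

* `ker N` on `H^i(Y)` has weights at most `i`, for all `Y` and `i`;
* the same with an error term `ε dim Y + C` for each `ε > 0`;
* `N` is injective on the part of weight `δ + 1` of `H^δ(Z)`, for all `Z` whose dimension `δ`
  belongs to a given unbounded set `I` of odd numbers;
* for these `Z` the symmetric bilinear form `⟨x, N y⟩` on the part of weight `δ + 1` of `H^δ(Z)` is
  nondegenerate.
-/

namespace Pool.Agent.Results.MP_d037d4_ag.SingleStepCriterion

open Pool.H73.WM Pool.H73.WM.Theory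

variable {q : ℕ} {Ω : Type} [Field Ω] [CharZero Ω]

/-- The weights of `F` on `ker N` in `H^i(Y)` are at most `i`, for all `Y` and all `i`. -/
def KerBound (T : Theory q Ω) : Prop :=
  ∀ (Y : T.Var) (i : ℕ) (α : Ω) (x : T.H Y i), x ≠ 0 → T.n x = 0 → T.f x = α • x →
    ∃ w : ℤ, w ≤ i ∧ IsWeil q α w

/-- For every `ε > 0` there is a constant `C` such that the weights of `F` on `ker N` in `H^i(Y)`
are at most `i + ε dim Y + C`, for all `Y` and all `i`. -/
def KerBoundAsymptotic (T : Theory q Ω) : Prop :=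
  ∀ ε : ℝ, 0 < ε → ∃ C : ℝ, ∀ (Y : T.Var) (i : ℕ) (α : Ω) (x : T.H Y i), x ≠ 0 →
    T.n x = 0 → T.f x = α • x → ∃ w : ℤ, (w : ℝ) ≤ i + ε * T.dim Y + C ∧ IsWeil q α w

/-- `⟨x, N y⟩` on the middle cohomology of `Z`. -/
def form (T : Theory q Ω) (Z : T.Var) (x y : T.H Z (T.dim Z)) : Ω :=
  Coh.ev (T.duality.pair Z (T.dim Z) (T.dim Z) (two_mul _).symm) x (T.n y)

/-- For all `Z` of dimension `δ ∈ I` the form `⟨x, N y⟩` on the part of weight `δ + 1` of `H^δ(Z)`
is nondegenerate. -/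
def FormNondegenerate (T : Theory q Ω) (I : Set ℕ) : Prop :=
  ∀ Z : T.Var, T.dim Z ∈ I → ∀ x ∈ T.W Z (T.dim Z) (T.dim Z + 1),
    (∀ y ∈ T.W Z (T.dim Z) (T.dim Z + 1), form T Z x y = 0) → x = 0

theorem form_symm (T : Theory q Ω) (Z : T.Var) (hZ : Odd (T.dim Z))
    (x y : T.H Z (T.dim Z)) : form T Z x y = form T Z y x := by
  change T.pair Z (T.dim Z) (T.dim Z) (two_mul _).symm x (T.N Z (T.dim Z) y)
    = T.pair Z (T.dim Z) (T.dim Z) (two_mul _).symm y (T.N Z (T.dim Z) x)
  rw [T.pair_symm Z (T.dim Z) (T.dim Z) (two_mul _).symm (two_mul _).symm x, T.pair_N]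
  have : (-1 : Ω) ^ (T.dim Z * T.dim Z) = -1 := (hZ.mul hZ).neg_one_pow
  rw [this]
  ring

theorem single_iff_form [IsAlgClosed Ω] (hq : 1 < q) (T : Theory q Ω) (I : Set ℕ) :
    SingleStep T I ↔ FormNondegenerate T I := by
  constructor
  · intro h Z hZ x hx hform
    apply h Z hZ x hx
    change T.N Z (T.dim Z) x = 0
    apply (T.pair_left Z (T.dim Z) (T.dim Z) (two_mul _).symm).1
    rw [map_zero]
    ext y
    rw [LinearMap.zero_apply]
    obtain ⟨a, ha, b, hb, hab⟩ := exists_decomp Z (T.dim Z) (T.dim Z + 1) y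
    have hNx := N_W hq Z (T.dim Z) _ x hx
    have e1 : ((T.dim Z : ℕ) : ℤ) + 1 - 2 = T.dim Z - 1 := by ring
    rw [e1] at hNx
    have h1 : T.pair Z (T.dim Z) (T.dim Z) (two_mul _).symm (T.N Z (T.dim Z) x) b = 0 := by
      apply pair_W hq Z (T.dim Z) (T.dim Z) (two_mul _).symm (T.dim Z - 1) _ hNx b
      have e : 2 * (T.dim Z : ℤ) - (T.dim Z - 1) = T.dim Z + 1 := by ring
      rw [e]
      exact hb
    have h2 : T.pair Z (T.dim Z) (T.dim Z) (two_mul _).symm (T.N Z (T.dim Z) x) a = 0 := by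
      rw [T.pair_N]
      have : T.pair Z (T.dim Z) (T.dim Z) (two_mul _).symm x (T.N Z (T.dim Z) a) = 0 := hform a ha
      rw [this, neg_zero]
    rw [hab, map_add, h1, h2, add_zero]
  · intro h Z hZ x hx hNx
    change T.N Z (T.dim Z) x = 0 at hNx
    apply h Z hZ x hx
    intro y _
    change T.pair Z (T.dim Z) (T.dim Z) (two_mul _).symm x (T.N Z (T.dim Z) y) = 0
    have := T.pair_N Z (T.dim Z) (T.dim Z) (two_mul _).symm x y
    rw [hNx, map_zero, LinearMap.zero_apply] at this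
    have h2 := this.symm
    rwa [neg_eq_zero] at h2

/-- Powers of a bad class. -/
theorem bad_pow (hq : 1 < q) {T : Theory q Ω} {δ j : ℕ} {w : ℤ} (h : Bad T δ j w) (n : ℕ) :
    Bad T ((n + 1) * δ) ((n + 1) * j) ((n + 1) * w) := by
  induction n with
  | zero => simpa using h
  | succ n ih =>
    obtain ⟨Z, hZ, x, hx0, hxN, α, hα, hxF⟩ := ih
    obtain ⟨Y, hY, y, hy0, hyN, β, hβ, hyF⟩ := h
    have e1 : (n + 1) * δ + δ = (n + 1 + 1) * δ := by ring
    have e2 : (n + 1) * j + j = (n + 1 + 1) * j := by ring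
    have e3 : ((n : ℤ) + 1) * w + w = (((n + 1 : ℕ) : ℤ) + 1) * w := by push_cast; ring
    rw [← e1, ← e2, ← e3]
    refine ⟨T.prod Z Y, by rw [T.dim_prod, hZ, hY], T.cross Z Y _ j x y, cross_ne Z Y _ j hx0 hy0,
      ?_, α * β, hα.mul hq hβ, ?_⟩
    · rw [T.cross_N, hxN, hyN]
      simp
    · rw [T.cross_F, hxF, hyF]
      simp only [map_smul, LinearMap.smul_apply, smul_smul]
      congr 1
      ring

theorem ker_of_asymptotic (hq : 1 < q) (T : Theory q Ω) (h : KerBoundAsymptotic T) :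
    KerBound T := by
  intro Y i α x hx0 hxN hxF
  obtain ⟨w, hw⟩ := T.mixed Y i α x hx0 hxF
  refine ⟨w, ?_, hw⟩
  by_contra hlt
  push Not at hlt
  have hbad : Bad T (T.dim Y) i w := ⟨Y, rfl, x, hx0, hxN, α, hw, hxF⟩
  obtain ⟨C, hC⟩ := h (1 / (2 * (T.dim Y + 1))) (by positivity)
  obtain ⟨n, hn⟩ := exists_nat_gt (2 * C)
  obtain ⟨Z, hZ, y, hy0, hyN, β, hβ, hyF⟩ := bad_pow hq hbad n
  obtain ⟨v, hv, hβ'⟩ := hC Z _ β y hy0 hyN hyF
  have hvw := IsWeil.unique hq hβ hβ'
  rw [← hvw, hZ] at hv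
  push_cast at hv
  have h1 : (w : ℝ) ≥ i + 1 := by exact_mod_cast hlt
  have h2 : (1 / (2 * ((T.dim Y : ℝ) + 1))) * (((n : ℝ) + 1) * T.dim Y) ≤ ((n : ℝ) + 1) / 2 := by
    rw [div_mul_eq_mul_div, div_le_div_iff₀ (by positivity) (by norm_num)]
    have : (0 : ℝ) ≤ T.dim Y := Nat.cast_nonneg _
    nlinarith [(Nat.cast_nonneg n : (0 : ℝ) ≤ n)]
  have h3 : ((n : ℝ) + 1) * w ≥ ((n : ℝ) + 1) * (i + 1) :=
    mul_le_mul_of_nonneg_left h1 (by positivity)
  nlinarith

/-- **Theorem.**  Let `T` be a cohomology theory as above and `I` an unbounded set of odd numbers.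
The weight-monodromy property for all `Y` and all `i` is equivalent to each of: the weights of
`ker N` on `H^i(Y)` are at most `i`; they are at most `i + ε dim Y + C(ε)` for every `ε > 0`; `N` is
injective on the part of weight `δ + 1` of `H^δ(Z)` for all `Z` with `δ = dim Z ∈ I`; for these `Z`
the form `⟨x, N y⟩`, which is symmetric, is nondegenerate on this part. -/
theorem result (q : ℕ) (hq : 1 < q) (Ω : Type) [Field Ω] [CharZero Ω] [IsAlgClosed Ω]
    (T : Theory q Ω) (I : Set ℕ) (hodd : ∀ δ ∈ I, Odd δ) (hunb : ∀ n : ℕ, ∃ δ ∈ I, n ≤ δ) :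
    List.TFAE [∀ (Y : T.Var) (i : ℕ), T.WeightMonodromy Y i,
      KerBound T, KerBoundAsymptotic T, SingleStep T I, FormNondegenerate T I] ∧
    (∀ Z : T.Var, Odd (T.dim Z) → ∀ x y, form T Z x y = form T Z y x) := by
  refine ⟨?_, fun Z hZ x y => form_symm T Z hZ x y⟩
  tfae_have 1 → 2 := fun h Y i α x hx0 hN hF => ker_of_wm (h Y i) α x hx0 hN hF
  tfae_have 2 → 3 := by
    intro h ε hε
    refine ⟨0, fun Y i α x hx0 hN hF => ?_⟩
    obtain ⟨w, hw, hα⟩ := h Y i α x hx0 hN hF
    refine ⟨w, ?_, hα⟩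
    have h1 : (w : ℝ) ≤ i := by exact_mod_cast hw
    have h2 : 0 ≤ ε * (T.dim Y : ℝ) := by positivity
    linarith
  tfae_have 3 → 2 := ker_of_asymptotic hq T
  tfae_have 2 → 4 := fun h => single_of_ker hq h I
  tfae_have 4 → 1 := fun h Y i =>
    wm_of_bij hq (fun Y i k => inj_of_single hq hodd hunb h Y i k) Y i
  tfae_have 4 ↔ 5 := single_iff_form hq T I
  tfae_finish

end Pool.Agent.Results.MP_d037d4_ag.SingleStepCriterion
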