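import Mathlib
import Pool.Agent.H65.KlsMain

set_option autoImplicit false

open MeasureTheory Measure Set Filter Topology
open scoped ENNReal NNReal

namespace Pool.Agent.Results.MP_dc1397_gt.SqrtTwo

open Pool.H65.Kls

lemma l1_open {N : ℕ} : IsOpen {x : EuclideanSpace ℝ (Fin N) | ∑ i, |x i| < 1} :=
  isOpen_lt l1_continuous continuous_const

lemma l1_convex {N : ℕ} : Convex ℝ {x : EuclideanSpace ℝ (Fin N) | ∑ i, |x i| < 1} := by
  intro x hx y hy a b ha hb hab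
  have hx' : l1 x < 1 := hx
  have hy' : l1 y < 1 := hy
  show l1 (a • x + b • y) < 1
  have h1 := l1_add (a • x) (b • y)
  rw [l1_smul, l1_smul, abs_of_nonneg ha, abs_of_nonneg hb] at h1
  rcases ha.eq_or_lt with h | h
  · rw [← h, zero_add] at hab
    rw [← h, hab] at h1 ⊢
    linarith
  · nlinarith

lemma l1_bounded {N : ℕ} :
    Bornology.IsBounded {x : EuclideanSpace ℝ (Fin N) | ∑ i, |x i| < 1} := by
  refine (Metric.isBounded_ball (x := (0 : EuclideanSpace ℝ (Fin N))) (r := 1)).subset ?_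
  intro x hx
  have hx' : l1 x < 1 := hx
  rw [Metric.mem_ball, dist_zero_right]
  refine lt_of_le_of_lt ?_ hx'
  rw [EuclideanSpace.norm_eq, Real.sqrt_le_left (l1_nonneg x), l1]
  simp only [Real.norm_eq_abs]
  exact Finset.sum_sq_le_sq_sum_of_nonneg fun i _ => abs_nonneg _

lemma l1_volume {N : ℕ} : 0 < volume {x : EuclideanSpace ℝ (Fin N) | ∑ i, |x i| < 1} := by
  refine l1_open.measure_pos _ ⟨0, ?_⟩
  simp

lemma section_lower' {M : ℕ} (a : EuclideanSpace ℝ (Fin (M + 1))) (ha : a ≠ 0) :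
    ENNReal.ofReal (2 ^ (M + 1) / (2 * √Real.pi) / M.factorial) ≤
      μHE[M] {x : EuclideanSpace ℝ (Fin (M + 1)) | x ∈ {x : EuclideanSpace ℝ (Fin (M + 1)) |
        ∑ i, |x i| < 1} ∧ inner ℝ a x = (0 : ℝ)} := by
  have ha' : 0 < ‖a‖ := norm_pos_iff.mpr ha
  have h1 := section_lower ((‖a‖⁻¹ : ℝ) • a) (by
    rw [norm_smul, norm_inv, norm_norm, inv_mul_cancel₀ ha'.ne'])
  refine h1.trans (measure_mono ?_)
  rintro x ⟨hx1, hx2⟩
  refine ⟨hx1, ?_⟩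
  rw [inner_smul_left] at hx2
  simpa [ha'.ne'] using hx2

lemma main_unit (c : ℝ) (hc : 0 < c) (hc2 : c < √2) :
    ∃ N₀ : ℕ, ∀ M : ℕ, N₀ ≤ M → ∃ F : Set (EuclideanSpace ℝ (Fin (M + 1))),
      MeasurableSet F ∧ F ⊆ {x | ∑ i, |x i| < 1} ∧
      volume F = volume {x : EuclideanSpace ℝ (Fin (M + 1)) | ∑ i, |x i| < 1} / 2 ∧
      ∀ a : EuclideanSpace ℝ (Fin (M + 1)), a ≠ 0 →
        ENNReal.ofReal c * μH[M] ({x | ∑ i, |x i| < 1} ∩ frontier F) <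
          μH[M] {x : EuclideanSpace ℝ (Fin (M + 1)) | x ∈ {x : EuclideanSpace ℝ (Fin (M + 1)) |
            ∑ i, |x i| < 1} ∧ inner ℝ a x = (0 : ℝ)} := by
  obtain ⟨N₀, hN₀⟩ := exists_cut c hc hc2
  refine ⟨N₀, fun M hM => ?_⟩
  obtain ⟨F, hF1, hF2, hF3, hF4⟩ := hN₀ M hM
  refine ⟨F, hF1, hF2, hF3, fun a ha => ?_⟩
  have h1 := section_lower' a ha
  have hpi := Real.pi_pos
  have h2 : ENNReal.ofReal c * μHE[M] ({x | ∑ i, |x i| < 1} ∩ frontier F) <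
      μHE[M] {x : EuclideanSpace ℝ (Fin (M + 1)) | x ∈ {x : EuclideanSpace ℝ (Fin (M + 1)) |
            ∑ i, |x i| < 1} ∧ inner ℝ a x = (0 : ℝ)} := by
    refine lt_of_lt_of_le ?_ h1
    have h3 : ENNReal.ofReal (2 ^ (M + 1) / (2 * √Real.pi) / M.factorial) =
        ENNReal.ofReal c * ENNReal.ofReal (2 ^ (M + 1) / (2 * √Real.pi) / M.factorial / c) := by
      rw [← ENNReal.ofReal_mul hc.le]
      congr 1
      field_simp
    rw [h3]
    exact (ENNReal.mul_lt_mul_iff_right (ENNReal.ofReal_pos.mpr hc).ne' ENNReal.ofReal_ne_top).2 hF4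
  rw [euclideanHausdorffMeasure_def, Measure.smul_apply, Measure.smul_apply] at h2
  set κ := addHaarScalarFactor (volume : Measure (EuclideanSpace ℝ (Fin M))) μH[M] with hκ
  have hκ0 : κ ≠ 0 := addHaarScalarFactor_volume_hausdorffMeasure_ne_zero M
  rw [ENNReal.smul_def, ENNReal.smul_def, smul_eq_mul, smul_eq_mul, ← mul_assoc,
    mul_comm (ENNReal.ofReal c), mul_assoc] at h2
  exact (ENNReal.mul_lt_mul_iff_right (by exact_mod_cast hκ0) ENNReal.coe_ne_top).1 h2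

/-- Lower bound `√2` for the constant in the KLS hyperplane conjecture for symmetric bodies:
in the cross-polytope of large dimension every central hyperplane section is almost `√2` times
larger than the boundary of some half-volume subset. -/
theorem result (c : ℝ≥0) (hc : (c : ℝ) < √2) :
    ∃ N₀ : ℕ, ∀ N : ℕ, N₀ ≤ N → ∀ Ω : Set (EuclideanSpace ℝ (Fin N)),
      Ω = {x | ∑ i, |x i| < 1} →
      (IsOpen Ω ∧ Convex ℝ Ω ∧ Bornology.IsBounded Ω ∧ (∀ x ∈ Ω, -x ∈ Ω) ∧ 0 < volume Ω) ∧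
      (∃ F : Set (EuclideanSpace ℝ (Fin N)), MeasurableSet F ∧ F ⊆ Ω ∧
        volume F = volume Ω / 2 ∧
        ∀ a : EuclideanSpace ℝ (Fin N), a ≠ 0 →
          (c : ℝ≥0∞) * μH[(N : ℝ) - 1] (Ω ∩ frontier F) <
            μH[(N : ℝ) - 1] {x | x ∈ Ω ∧ inner ℝ a x = (0 : ℝ)}) ∧
      (∀ E : Set (EuclideanSpace ℝ (Fin N)),
        (∀ F : Set (EuclideanSpace ℝ (Fin N)), MeasurableSet F → F ⊆ Ω →
          volume F = volume Ω / 2 →
          μH[(N : ℝ) - 1] (Ω ∩ frontier E) ≤ μH[(N : ℝ) - 1] (Ω ∩ frontier F)) →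
        ∀ a : EuclideanSpace ℝ (Fin N), a ≠ 0 →
          (c : ℝ≥0∞) * μH[(N : ℝ) - 1] (Ω ∩ frontier E) <
            μH[(N : ℝ) - 1] {x | x ∈ Ω ∧ inner ℝ a x = (0 : ℝ)}) := by
  have h12 : (1 : ℝ) < √2 := by
    rw [Real.lt_sqrt (by norm_num)]
    norm_num
  obtain ⟨N₀, hN₀⟩ := main_unit (max (c : ℝ) 1) (by positivity) (max_lt hc h12)
  refine ⟨N₀ + 1, fun N hN Ω hΩ => ?_⟩
  obtain ⟨M, rfl⟩ : ∃ M, N = M + 1 := ⟨N - 1, by omega⟩
  have hM : ((M + 1 : ℕ) : ℝ) - 1 = M := by push_cast; ring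
  rw [hM]
  subst hΩ
  obtain ⟨F, hF1, hF2, hF3, hF4⟩ := hN₀ M (by omega)
  have hF5 : ∀ a : EuclideanSpace ℝ (Fin (M + 1)), a ≠ 0 →
      (c : ℝ≥0∞) * μH[M] ({x | ∑ i, |x i| < 1} ∩ frontier F) <
        μH[M] {x : EuclideanSpace ℝ (Fin (M + 1)) | x ∈ {x : EuclideanSpace ℝ (Fin (M + 1)) |
            ∑ i, |x i| < 1} ∧ inner ℝ a x = (0 : ℝ)} := by
    intro a ha
    refine lt_of_le_of_lt ?_ (hF4 a ha)
    gcongr
    rw [← ENNReal.ofReal_coe_nnreal]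
    exact ENNReal.ofReal_le_ofReal (le_max_left _ _)
  refine ⟨⟨l1_open, l1_convex, l1_bounded, fun x hx => ?_, l1_volume⟩,
    ⟨F, hF1, hF2, hF3, hF5⟩, fun E hE a ha => ?_⟩
  · simpa using hx
  · exact lt_of_le_of_lt (mul_le_mul_right (hE F hF1 hF2 hF3) _) (hF5 a ha)

end Pool.Agent.Results.MP_dc1397_gt.SqrtTwo
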